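import Pool.Agent.H88.LpDynDefs
import Pool.Agent.H88.HeredDefs
import Pool.Agent.H88.Hered

set_option autoImplicit false

namespace Pool.Agent.Results.MP_1d57ab_an.Mild

open Pool.Agent.H88.LpDynDefs Pool.Agent.H88.Hered

universe u

theorem result : ∃ T : Op,
    (∀ (Y : Type u) [TopologicalSpace Y] [PolishSpace Y] (S : Y → Y), Continuous S →
      FHC Inf S → FHC Inf (Prod.map S T)) ∧ ¬ HeredFHC Inf T :=
  ⟨T, fun _ _ _ S hS h => prod_fhc S hS h, not_hered⟩

end Pool.Agent.Results.MP_1d57ab_an.Mild
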